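import Mathlib

/-!
# Circular cliques

The circular clique `K_{p/q}` has vertex set `ZMod p`, and `i` is adjacent to `i + d` for
`q ≤ d ≤ p - q`.  If there is a homomorphism `K_{p/q} → K_{p'/q'}` then `p / q ≤ p' / q'`.
-/

namespace Pool.Agent.helper9.Incl

/-- adjacency in the circular clique `K_{p/q}` -/
def cadj (p q : ℕ) (i j : ZMod p) : Prop := ∃ d : ℕ, q ≤ d ∧ d + q ≤ p ∧ j = i + d

theorem cadj_symm {p q : ℕ} {i j : ZMod p} (h : cadj p q i j) : cadj p q j i := by
  obtain ⟨d, h1, h2, rfl⟩ := h
  refine ⟨p - d, by omega, by omega, ?_⟩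
  rw [Nat.cast_sub (by omega : d ≤ p), ZMod.natCast_self]
  ring

theorem exists_diff {p : ℕ} [NeZero p] (i j : ZMod p) : ∃ d : ℕ, d < p ∧ j = i + d :=
  ⟨(j - i).val, ZMod.val_lt _, by rw [ZMod.natCast_zmod_val]; ring⟩

/-- independent sets in `K_{p/q}` have at most `q` elements -/
theorem card_indep {p q : ℕ} [NeZero p] (hq : 0 < q) (hpq : 2 * q ≤ p) (A : Finset (ZMod p))
    (hA : ∀ i ∈ A, ∀ j ∈ A, ¬ cadj p q i j) : A.card ≤ q := by
  classical
  rcases A.eq_empty_or_nonempty with rfl | ⟨s, hs⟩
  · simp
  choose d hd hd' using fun t : ZMod p => exists_diff s t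
  have h1 : ∀ t ∈ A, d t < q ∨ p - q < d t := by
    intro t ht
    by_contra hcon
    push Not at hcon
    exact hA s hs t ht ⟨d t, hcon.1, by omega, hd' t⟩
  let f : ZMod p → ℕ := fun t => if d t < q then d t else d t - (p - q)
  have h2 : ∀ t ∈ A, f t ∈ Finset.range q := by
    intro t ht
    have := hd t
    rw [Finset.mem_range]
    simp only [f]
    split_ifs with h <;> omega
  have h3 : Set.InjOn f A := by
    intro t ht t' ht' hff
    have e1 := h1 t ht
    have e2 := h1 t' ht'
    have hdt := hd t
    have hdt' := hd t'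
    have key : ∀ a ∈ A, ∀ b ∈ A, d b = d a + (p - q) → False := by
      intro a ha b hb hab
      refine hA a ha b hb ⟨p - q, by omega, by omega, ?_⟩
      rw [hd' b, hab, Nat.cast_add, ← add_assoc, ← hd' a]
    have hdd : d t = d t' := by
      simp only [f] at hff
      split_ifs at hff with h4 h5 h5
      · exact hff
      · exact (key t ht t' ht' (by omega)).elim
      · exact (key t' ht' t ht (by omega)).elim
      · omega
    rw [hd' t, hd' t', hdd]
  have h4 := Finset.card_le_card_of_injOn f h2 h3
  rwa [Finset.card_range] at h4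

/-- the no-homomorphism lemma for circular cliques -/
theorem no_hom {p q p' q' : ℕ} [NeZero p] [NeZero p'] (hq : 0 < q) (hpq : 2 * q ≤ p)
    (hpq' : 2 * q' ≤ p') (f : ZMod p → ZMod p')
    (hf : ∀ i j, cadj p q i j → cadj p' q' (f i) (f j)) : p * q' ≤ p' * q := by
  classical
  let B : ZMod p' → Finset (ZMod p) := fun t =>
    Finset.univ.filter (fun i => ∃ e : ℕ, e < q' ∧ f i = t + e)
  have hB : ∀ t, (B t).card ≤ q := by
    intro t
    apply card_indep hq hpq
    intro i hi j hj hij
    simp only [B, Finset.mem_filter, Finset.mem_univ, true_and] at hi hj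
    obtain ⟨e, he, hei⟩ := hi
    obtain ⟨e', he', hej⟩ := hj
    obtain ⟨d, h1, h2, h3⟩ := hf i j hij
    rw [hei, hej] at h3
    have h4 : ((e' : ℕ) : ZMod p') = ((e + d : ℕ) : ZMod p') := by
      push_cast
      have h5 : t + (e' : ZMod p') = t + (e + d) := by rw [h3]; ring
      exact add_left_cancel h5
    have h5 := (ZMod.natCast_eq_natCast_iff' _ _ _).mp h4
    rw [Nat.mod_eq_of_lt (by omega : e' < p')] at h5
    rcases lt_or_ge (e + d) p' with h6 | h6
    · rw [Nat.mod_eq_of_lt h6] at h5; omega
    · rw [Nat.mod_eq_sub_mod h6, Nat.mod_eq_of_lt (by omega)] at h5; omega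
  have hcount : ∀ i : ZMod p, q' ≤ (Finset.univ.filter (fun t : ZMod p' => i ∈ B t)).card := by
    intro i
    let g : ℕ → ZMod p' := fun e => f i - e
    have h1 : ∀ e ∈ Finset.range q', g e ∈ Finset.univ.filter (fun t : ZMod p' => i ∈ B t) := by
      intro e he
      rw [Finset.mem_range] at he
      simp only [B, Finset.mem_filter, Finset.mem_univ, true_and]
      exact ⟨e, he, by simp [g]⟩
    have h2 : Set.InjOn g (Finset.range q') := by
      intro e he e' he' hee
      simp only [Finset.coe_range, Set.mem_Iio] at he he'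
      simp only [g] at hee
      have h3 : (e : ZMod p') = e' := by
        have := congrArg (fun x => f i - x) hee
        simpa using this
      have h4 := (ZMod.natCast_eq_natCast_iff' _ _ _).mp h3
      rwa [Nat.mod_eq_of_lt (by omega), Nat.mod_eq_of_lt (by omega)] at h4
    have h3 := Finset.card_le_card_of_injOn g h1 h2
    rwa [Finset.card_range] at h3
  have hdc : ∑ i : ZMod p, (Finset.univ.filter (fun t : ZMod p' => i ∈ B t)).card =
      ∑ t : ZMod p', (B t).card := by
    simp only [Finset.card_eq_sum_ones, Finset.sum_filter]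
    rw [Finset.sum_comm]
    apply Finset.sum_congr rfl
    intro t _
    rw [← Finset.sum_filter]
    congr 1
    ext i
    simp
  calc p * q' = ∑ _i : ZMod p, q' := by
        rw [Finset.sum_const, Finset.card_univ, ZMod.card, smul_eq_mul]
    _ ≤ ∑ i : ZMod p, (Finset.univ.filter (fun t : ZMod p' => i ∈ B t)).card :=
        Finset.sum_le_sum fun i _ => hcount i
    _ = ∑ t : ZMod p', (B t).card := hdc
    _ ≤ ∑ _t : ZMod p', q := Finset.sum_le_sum fun t _ => hB t
    _ = p' * q := by rw [Finset.sum_const, Finset.card_univ, ZMod.card, smul_eq_mul]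

end Pool.Agent.helper9.Incl
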