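import Mathlib

/-!
# Identical inclusions and inclusive varieties of semigroups
-/

universe u v

namespace Pool.Agent.helper9.Incl

/-- Words over the countably infinite alphabet `ℕ`: the free semigroup `X⁺`. -/
abbrev Word : Type := FreeSemigroup ℕ

/-- `S` satisfies the identical inclusion `u ∈̂ W`: for every homomorphism `φ : X⁺ → S` there is
`v ∈ W` with `φ u = φ v`. -/
def SatIncl (S : Type u) [Semigroup S] (u : Word) (W : Set Word) : Prop :=
  ∀ φ : Word →ₙ* S, ∃ v ∈ W, φ u = φ v

/-- A class of semigroups. -/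
abbrev SgClass : Type (u + 1) := (S : Type u) → [Semigroup S] → Prop

/-- An inclusive variety: the class of all semigroups satisfying a given set of identical
inclusions. -/
def IsInclVariety (V : SgClass.{u}) : Prop :=
  ∃ E : Set (Word × Set Word), ∀ (S : Type u) [Semigroup S], V S ↔ ∀ e ∈ E, SatIncl S e.1 e.2

/-- The set `L(V)` of all inclusive subvarieties of `V`. -/
def InclSub (V : SgClass.{u}) : Set SgClass.{u} :=
  {W | IsInclVariety W ∧ ∀ (S : Type u) [Semigroup S], W S → V S}

/-- `pw a n` is the power `a ^ (n + 1)`. -/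
def pw {S : Type u} [Semigroup S] (a : S) : ℕ → S
  | 0 => a
  | n + 1 => pw a n * a

section
variable {S : Type u} [Semigroup S]

theorem pw_mul (a : S) (i j : ℕ) : pw a i * pw a j = pw a (i + j + 1) := by
  induction j with
  | zero => rfl
  | succ j ih =>
    change pw a i * (pw a j * a) = pw a (i + j + 1) * a
    rw [← mul_assoc, ih]

theorem pw_map {T : Type v} [Semigroup T] (f : S →ₙ* T) (a : S) (n : ℕ) :
    f (pw a n) = pw (f a) n := by
  induction n with
  | zero => rfl
  | succ n ih => rw [pw, map_mul, ih]; rfl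

/-- the weight of a word, the letter `z` having weight `w z + 1` -/
def wt (w : ℕ → ℕ) (v : Word) : ℕ := (w v.head + 1) + (v.tail.map (fun z => w z + 1)).sum

theorem wt_of (w : ℕ → ℕ) (z : ℕ) : wt w (FreeSemigroup.of z) = w z + 1 := by
  simp [wt]

theorem wt_mul (w : ℕ → ℕ) (x y : Word) : wt w (x * y) = wt w x + wt w y := by
  simp only [wt, FreeSemigroup.head_mul, FreeSemigroup.tail_mul, List.map_append, List.map_cons,
    List.sum_append, List.sum_cons]
  ring

theorem wt_pos (w : ℕ → ℕ) (x : Word) : 1 ≤ wt w x := by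
  unfold wt; omega

theorem length_le_wt (w : ℕ → ℕ) (v : Word) : v.length ≤ wt w v := by
  induction v using FreeSemigroup.recOnMul with
  | ih1 x => rw [FreeSemigroup.length_of, wt_of]; omega
  | ih2 x y hx hy => rw [FreeSemigroup.length_mul, wt_mul]; omega

theorem lift_pw (a : S) (w : ℕ → ℕ) (v : Word) :
    FreeSemigroup.lift (fun z => pw a (w z)) v = pw a (wt w v - 1) := by
  induction v using FreeSemigroup.recOnMul with
  | ih1 x => rw [FreeSemigroup.lift_of, wt_of]; rfl
  | ih2 x y hx hy =>
    rw [FreeSemigroup.lift_of_mul, hy, pw_mul, wt_mul, wt_of]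
    congr 1
    have := wt_pos w y
    omega

end

/-- The inclusive variety generated by a class. -/
def gen (K : SgClass.{u}) : SgClass.{u} := fun S _ =>
  ∀ (u : Word) (W : Set Word), (∀ (T : Type u) [Semigroup T], K T → SatIncl T u W) → SatIncl S u W

theorem gen_isInclVariety (K : SgClass.{u}) : IsInclVariety (gen K) :=
  ⟨{e | ∀ (T : Type u) [Semigroup T], K T → SatIncl T e.1 e.2}, fun _ _ =>
    ⟨fun h e he => h e.1 e.2 he, fun h u W hW => h (u, W) hW⟩⟩

theorem subset_gen {K : SgClass.{u}} {S : Type u} [Semigroup S] (h : K S) : gen K S :=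
  fun _ _ hW => hW S h

theorem gen_le {K V : SgClass.{u}} (hV : IsInclVariety V)
    (h : ∀ (S : Type u) [Semigroup S], K S → V S) (S : Type u) [Semigroup S] (hS : gen K S) :
    V S := by
  obtain ⟨E, hE⟩ := hV
  rw [hE]
  intro e he
  apply hS
  intro T _ hT
  exact (hE T).mp (h T hT) e he

end Pool.Agent.helper9.Incl
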