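import Mathlib
import Pool.Agent.helper9.Incl.Defs
import Pool.Agent.helper9.Incl.Circ

/-!
# Inclusive varieties with countably many inclusive subvarieties
-/

universe u v

namespace Pool.Agent.helper9.Incl

/-! ### The semigroup of a relation -/

/-- The underlying type of the semigroup of a relation: vertices, an element `c`, and `0`. -/
inductive TG (A : Type) (R : A → A → Prop) : Type u
  | zero : TG A R
  | c : TG A R
  | vert : A → TG A R

open Classical in
/-- The product: `a b = c` for adjacent vertices, all other products are `0`. -/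
noncomputable def TG.mul {A : Type} {R : A → A → Prop} : TG.{u} A R → TG.{u} A R → TG.{u} A R
  | .vert a, .vert b => if R a b then .c else .zero
  | _, _ => .zero

theorem TG.mul_zero' {A : Type} {R : A → A → Prop} (x : TG.{u} A R) : TG.mul x .zero = .zero := by
  cases x <;> rfl

theorem TG.zero_mul' {A : Type} {R : A → A → Prop} (x : TG.{u} A R) : TG.mul .zero x = .zero := by
  cases x <;> rfl

theorem TG.mul_c {A : Type} {R : A → A → Prop} (x : TG.{u} A R) : TG.mul x .c = .zero := by
  cases x <;> rfl

theorem TG.c_mul {A : Type} {R : A → A → Prop} (x : TG.{u} A R) : TG.mul .c x = .zero := by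
  cases x <;> rfl

theorem TG.mul_cases {A : Type} {R : A → A → Prop} (x y : TG.{u} A R) :
    TG.mul x y = .zero ∨ TG.mul x y = .c := by
  cases x with
  | zero => exact Or.inl rfl
  | c => exact Or.inl (TG.c_mul _)
  | vert a =>
    cases y with
    | zero => exact Or.inl rfl
    | c => exact Or.inl rfl
    | vert b =>
      simp only [TG.mul]
      split_ifs
      · exact Or.inr rfl
      · exact Or.inl rfl

theorem TG.mul3 {A : Type} {R : A → A → Prop} (x y z : TG.{u} A R) :
    TG.mul (TG.mul x y) z = .zero := by
  rcases TG.mul_cases x y with h | h <;> rw [h]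
  · exact TG.zero_mul' z
  · exact TG.c_mul z

theorem TG.mul3' {A : Type} {R : A → A → Prop} (x y z : TG.{u} A R) :
    TG.mul x (TG.mul y z) = .zero := by
  rcases TG.mul_cases y z with h | h <;> rw [h]
  · exact TG.mul_zero' x
  · exact TG.mul_c x

noncomputable instance {A : Type} {R : A → A → Prop} : Semigroup (TG.{u} A R) where
  mul := TG.mul
  mul_assoc x y z := (TG.mul3 x y z).trans (TG.mul3' x y z).symm

theorem TG.mul_def {A : Type} {R : A → A → Prop} (x y : TG.{u} A R) : x * y = TG.mul x y := rfl

theorem TG.vert_mul {A : Type} {R : A → A → Prop} (a b : A) (h : R a b) :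
    (TG.vert a * TG.vert b : TG.{u} A R) = .c := by
  rw [TG.mul_def]
  simp only [TG.mul]
  rw [if_pos h]

theorem TG.eq_vert {A : Type} {R : A → A → Prop} {x y : TG.{u} A R} (h : x * y ≠ .zero) :
    ∃ a b, x = .vert a ∧ y = .vert b ∧ R a b := by
  rw [TG.mul_def] at h
  cases x with
  | zero => exact absurd rfl h
  | c => exact absurd (TG.c_mul _) h
  | vert a =>
    cases y with
    | zero => exact absurd rfl h
    | c => exact absurd rfl h
    | vert b =>
      refine ⟨a, b, rfl, rfl, ?_⟩
      by_contra hab
      apply h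
      simp only [TG.mul]
      rw [if_neg hab]

theorem TG.comm {A : Type} {R : A → A → Prop} (hR : ∀ a b, R a b → R b a) (x y : TG.{u} A R) :
    x * y = y * x := by
  by_cases h : x * y = .zero
  · by_cases h' : y * x = .zero
    · rw [h, h']
    · obtain ⟨a, b, rfl, rfl, hab⟩ := TG.eq_vert h'
      rw [TG.vert_mul _ _ hab, TG.vert_mul _ _ (hR _ _ hab)]
  · obtain ⟨a, b, rfl, rfl, hab⟩ := TG.eq_vert h
    rw [TG.vert_mul _ _ hab, TG.vert_mul _ _ (hR _ _ hab)]

/-! ### Commutative 3-nilpotent semigroups -/

/-- The value of a word of length at least three in a 3-nilpotent semigroup. -/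
theorem eval_nil {T : Type u} [Semigroup T] (o : T) (ho : ∀ x y z : T, x * y * z = o)
    (ψ : Word →ₙ* T) (v : Word) (hv : 3 ≤ v.length) : ψ v = o := by
  obtain ⟨x, l⟩ := v
  match l with
  | [] => simp [FreeSemigroup.length] at hv
  | [_] => simp [FreeSemigroup.length] at hv
  | y :: z :: l =>
    have h1 : (⟨x, y :: z :: l⟩ : Word) =
        FreeSemigroup.of x * FreeSemigroup.of y * ⟨z, l⟩ := rfl
    rw [h1, map_mul, map_mul, ho]

/-- cancellation of small powers -/
theorem pw_inj {S : Type u} [Semigroup S] (a : S) (ha : ∀ n, 2 ≤ n → pw a 1 ≠ pw a n) (m n : ℕ)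
    (hm : m ≤ 1) (h : pw a m = pw a n) : n = m := by
  have h2 : ∀ i j, pw a i = pw a j → pw a (i + 1) = pw a (j + 1) := by
    intro i j hij
    change pw a i * a = pw a j * a
    rw [hij]
  interval_cases m
  · by_contra hn
    have h3 := h2 _ _ h
    exact ha (n + 1) (by omega) h3
  · by_contra hn
    rcases Nat.lt_or_ge n 2 with h3 | h3
    · have h4 : n = 0 := by omega
      subst h4
      exact ha 2 le_rfl (h2 _ _ h).symm
    · exact ha n h3 h

/-- the two-letter evaluation -/
def ev2 {S : Type u} [Semigroup S] (a b : S) : FreeSemigroup Bool →ₙ* S :=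
  FreeSemigroup.lift (fun c => cond c a b)

theorem mem_of_comm_nil {V : SgClass.{u}} (hV : IsInclVariety V)
    {S₁ : Type u} [Semigroup S₁] (h1 : V S₁) (a : S₁) (ha : ∀ n, 2 ≤ n → pw a 1 ≠ pw a n)
    {S₂ : Type u} [Semigroup S₂] (h2 : V S₂) (b₁ b₂ : S₂) (hb1 : b₁ * b₂ ≠ b₁ * b₁)
    (hb2 : b₁ * b₂ ≠ b₂ * b₂) (hb3 : ∀ w : FreeSemigroup Bool, 3 ≤ w.length →
      b₁ * b₂ ≠ ev2 b₁ b₂ w)
    (T : Type u) [Semigroup T] (hcomm : ∀ x y : T, x * y = y * x) (o : T)
    (ho : ∀ x y z : T, x * y * z = o) : V T := by
  classical
  obtain ⟨E, hE⟩ := hV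
  rw [hE]
  rintro ⟨u, W⟩ he ψ
  have hs1 : SatIncl S₁ u W := (hE S₁).mp h1 (u, W) he
  have hs2 : SatIncl S₂ u W := (hE S₂).mp h2 (u, W) he
  change ∃ v ∈ W, ψ u = ψ v
  obtain ⟨x, l⟩ := u
  match l with
  | [] =>
    obtain ⟨v, hv, hvu⟩ := hs1 (FreeSemigroup.lift (fun z => pw a
      ((fun z => if ψ (FreeSemigroup.of z) = ψ (FreeSemigroup.of x) then 0 else 2) z)))
    refine ⟨v, hv, ?_⟩
    rw [lift_pw, lift_pw] at hvu
    have e1 : wt (fun z => if ψ (FreeSemigroup.of z) = ψ (FreeSemigroup.of x) then 0 else 2)
        (⟨x, []⟩ : Word) = 1 := by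
      simp [wt]
    rw [e1] at hvu
    have h3 := pw_inj a ha _ _ (by omega) hvu
    have h4 := wt_pos (fun z => if ψ (FreeSemigroup.of z) = ψ (FreeSemigroup.of x) then 0 else 2) v
    have h5 := length_le_wt
      (fun z => if ψ (FreeSemigroup.of z) = ψ (FreeSemigroup.of x) then 0 else 2) v
    obtain ⟨z, l'⟩ := v
    match l' with
    | [] =>
      have h6 : ψ (FreeSemigroup.of z) = ψ (FreeSemigroup.of x) := by
        by_contra hne
        simp [wt, hne] at h3
      exact h6.symm
    | y :: l' =>
      simp [FreeSemigroup.length] at h5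
      omega
  | [y] =>
    by_cases hxy : x = y
    · subst hxy
      obtain ⟨v, hv, hvu⟩ := hs1 (FreeSemigroup.lift (fun z => pw a
        ((fun z => if z = x then 0 else 2) z)))
      refine ⟨v, hv, ?_⟩
      rw [lift_pw, lift_pw] at hvu
      have e1 : wt (fun z => if z = x then 0 else 2) (⟨x, [x]⟩ : Word) = 2 := by
        simp [wt]
      rw [e1] at hvu
      have h3 := pw_inj a ha _ _ (by omega) hvu
      have h5 := length_le_wt (fun z => if z = x then 0 else 2) v
      obtain ⟨z, l'⟩ := v
      match l' with
      | [] =>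
        simp only [wt, List.map_nil, List.sum_nil] at h3
        split_ifs at h3
        omega
      | [y] =>
        simp only [wt, List.map_cons, List.sum_cons, List.map_nil, List.sum_nil] at h3
        by_cases hz : z = x
        · by_cases hy : y = x
          · rw [hz, hy]
          · simp [hz, hy] at h3
        · simp [hz] at h3
          split_ifs at h3 <;> omega
      | y :: y' :: l' =>
        simp [FreeSemigroup.length] at h5
        omega
    · let θ : ℕ → FreeSemigroup Bool := fun z =>
        if z = x then FreeSemigroup.of true else if z = y then FreeSemigroup.of false else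
          ⟨true, [true, true]⟩
      have hθ : ∀ z, 1 ≤ (θ z).length := by
        intro z
        unfold FreeSemigroup.length
        omega
      obtain ⟨v, hv, hvu⟩ := hs2 ((ev2 b₁ b₂).comp (FreeSemigroup.lift θ))
      refine ⟨v, hv, ?_⟩
      have e1 : (ev2 b₁ b₂).comp (FreeSemigroup.lift θ) (⟨x, [y]⟩ : Word) = b₁ * b₂ := by
        have : (⟨x, [y]⟩ : Word) = FreeSemigroup.of x * FreeSemigroup.of y := rfl
        rw [this, map_mul]
        simp [θ, ev2, Ne.symm hxy]
      rw [e1] at hvu
      have hlen : (FreeSemigroup.lift θ v).length < 3 := by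
        by_contra hcon
        push Not at hcon
        exact hb3 _ hcon hvu
      have hb1' : b₁ ≠ b₁ * b₂ := by
        intro h
        apply hb3 ⟨true, [false, false]⟩ (by simp [FreeSemigroup.length])
        change b₁ * b₂ = b₁ * b₂ * b₂
        rw [← h]
        exact h
      have hb2' : b₂ ≠ b₁ * b₂ := by
        intro h
        apply hb3 ⟨true, [true, false]⟩ (by simp [FreeSemigroup.length])
        change b₁ * b₂ = b₁ * b₁ * b₂
        rw [mul_assoc, ← h]
        exact h
      obtain ⟨z, l'⟩ := v
      match l' with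
      | [] =>
        exfalso
        have e2 : (ev2 b₁ b₂).comp (FreeSemigroup.lift θ) (⟨z, []⟩ : Word) = ev2 b₁ b₂ (θ z) := rfl
        rw [e2] at hvu
        simp only [θ] at hvu
        split_ifs at hvu with h6 h7
        · exact hb1' hvu.symm
        · exact hb2' hvu.symm
        · exact hb3 _ (by simp [FreeSemigroup.length]) hvu
      | [t] =>
        have e2 : (⟨z, [t]⟩ : Word) = FreeSemigroup.of z * FreeSemigroup.of t := rfl
        rw [e2, map_mul, FreeSemigroup.length_mul, FreeSemigroup.lift_of,
          FreeSemigroup.lift_of] at hlen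
        rw [e2, map_mul] at hvu
        have e3 : ∀ z, (ev2 b₁ b₂).comp (FreeSemigroup.lift θ) (FreeSemigroup.of z) =
          ev2 b₁ b₂ (θ z) := fun _ => rfl
        rw [e3, e3] at hvu
        have hθz : z = x ∨ z = y := by
          by_contra hcon
          push Not at hcon
          have h8 : (θ z).length = 3 := by simp [θ, hcon.1, hcon.2, FreeSemigroup.length]
          omega
        have hθt : t = x ∨ t = y := by
          by_contra hcon
          push Not at hcon
          have h8 : (θ t).length = 3 := by simp [θ, hcon.1, hcon.2, FreeSemigroup.length]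
          omega
        rcases hθz with rfl | rfl <;> rcases hθt with rfl | rfl
        · exfalso
          apply hb1
          simpa [θ, ev2] using hvu
        · rfl
        · have e4 : (⟨z, [t]⟩ : Word) = FreeSemigroup.of z * FreeSemigroup.of t := rfl
          have e5 : (⟨t, [z]⟩ : Word) = FreeSemigroup.of t * FreeSemigroup.of z := rfl
          rw [e4, e5, map_mul, map_mul]
          exact hcomm _ _
        · exfalso
          apply hb2
          simpa [θ, ev2, Ne.symm hxy] using hvu
      | t :: t' :: l' =>
        exfalso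
        have h8 : (⟨z, t :: t' :: l'⟩ : Word) = FreeSemigroup.of z * FreeSemigroup.of t *
          ⟨t', l'⟩ := rfl
        rw [h8, map_mul, map_mul, FreeSemigroup.length_mul, FreeSemigroup.length_mul,
          FreeSemigroup.lift_of, FreeSemigroup.lift_of] at hlen
        have h9 : 1 ≤ (FreeSemigroup.lift θ (⟨t', l'⟩ : Word)).length := by
          unfold FreeSemigroup.length; omega
        have := hθ z
        have := hθ t
        omega
  | y :: z :: l =>
    obtain ⟨v, hv, hvu⟩ := hs1 (FreeSemigroup.lift (fun z => pw a ((fun _ => 0) z)))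
    refine ⟨v, hv, ?_⟩
    have hw : ∀ v : Word, wt (fun _ => 0) v = v.length := by
      intro v
      induction v using FreeSemigroup.recOnMul with
      | ih1 x => rw [FreeSemigroup.length_of, wt_of]
      | ih2 x y hx hy => rw [FreeSemigroup.length_mul, wt_mul, hx, hy]
    rw [lift_pw, lift_pw, hw, hw] at hvu
    have hl : 3 ≤ (⟨x, y :: z :: l⟩ : Word).length := by
      simp [FreeSemigroup.length]
    have hl2 : 3 ≤ v.length := by
      by_contra hcon
      push Not at hcon
      have hv1 : 1 ≤ v.length := by unfold FreeSemigroup.length; omega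
      have := pw_inj a ha (v.length - 1) _ (by omega) hvu.symm
      omega
    rw [eval_nil o ho ψ _ hl, eval_nil o ho ψ v hl2]

end Pool.Agent.helper9.Incl
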