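import Mathlib
import Pool.Agent.helper9.Incl.Main

/-!
# Uncountable families of inclusive subvarieties
-/

universe u v

namespace Pool.Agent.helper9.Incl

/-- The inclusive variety generated by a family of semigroups. -/
def genF {ι : Type v} (T : ι → Type u) [∀ i, Semigroup (T i)] : SgClass.{u} := fun S _ =>
  ∀ (u : Word) (W : Set Word), (∀ i, SatIncl (T i) u W) → SatIncl S u W

theorem genF_isInclVariety {ι : Type v} (T : ι → Type u) [∀ i, Semigroup (T i)] :
    IsInclVariety (genF T) :=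
  ⟨{e | ∀ i, SatIncl (T i) e.1 e.2}, fun _ _ =>
    ⟨fun h e he => h e.1 e.2 he, fun h u W hW => h (u, W) hW⟩⟩

theorem genF_mem {ι : Type v} (T : ι → Type u) [∀ i, Semigroup (T i)] (i : ι) :
    genF T (T i) := fun _ _ hW => hW i

theorem genF_mem_sub {V : SgClass.{u}} (hV : IsInclVariety V) {ι : Type v} (T : ι → Type u)
    [∀ i, Semigroup (T i)] (h : ∀ i, V (T i)) : genF T ∈ InclSub V := by
  refine ⟨genF_isInclVariety T, ?_⟩
  intro S _ hS
  obtain ⟨E, hE⟩ := hV
  rw [hE]
  intro e he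
  apply hS
  intro i
  exact (hE (T i)).mp (h i) e he

/-! ### Circular cliques -/

/-- the pairs `(p, q)` with `2 ≤ p / q < x` -/
def Idx (x : ℝ) : Type := {e : ℕ × ℕ // 0 < e.2 ∧ 2 * e.2 ≤ e.1 ∧ (e.1 : ℝ) < x * e.2}

/-- the semigroup of the circular clique `K_{p/q}` -/
abbrev CC (p q : ℕ) : Type u := TG.{u} (ZMod p) (cadj p q)

theorem cc_not_mem {ι : Type v} (e : ι → ℕ × ℕ) (he : ∀ i, 0 < (e i).2 ∧ 2 * (e i).2 ≤ (e i).1)
    (p q : ℕ) (hq : 0 < q) (hpq : 2 * q ≤ p) (hlt : ∀ i, (e i).1 * q < p * (e i).2) :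
    ¬ genF (fun i => CC.{u} (e i).1 (e i).2) (CC.{u} p q) := by
  intro hgen
  haveI : NeZero p := ⟨by omega⟩
  let u : Word := FreeSemigroup.of 0 * FreeSemigroup.of 0 * FreeSemigroup.of 0
  let W : Set Word := {v | ∃ i j : ZMod p, cadj p q i j ∧
    v = FreeSemigroup.of i.val * FreeSemigroup.of j.val}
  have hsat : ∀ i, SatIncl (CC.{u} (e i).1 (e i).2) u W := by
    intro i φ
    haveI : NeZero (e i).1 := ⟨by have := he i; omega⟩
    have hu : φ u = TG.zero := by
      rw [map_mul, map_mul]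
      exact TG.mul3 _ _ _
    by_contra hcon
    push Not at hcon
    rw [hu] at hcon
    have h1 : ∀ i' j' : ZMod p, cadj p q i' j' →
        φ (FreeSemigroup.of i'.val) * φ (FreeSemigroup.of j'.val) ≠ TG.zero := by
      intro i' j' hij h
      apply hcon _ ⟨i', j', hij, rfl⟩
      rw [map_mul, h]
    have h2 : ∀ i' : ZMod p, ∃ a, φ (FreeSemigroup.of i'.val) = TG.vert a := by
      intro i'
      obtain ⟨a, b, ha, hb, hab⟩ := TG.eq_vert (h1 i' (i' + (q : ℕ)) ⟨q, le_rfl, by omega, rfl⟩)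
      exact ⟨a, ha⟩
    choose f hf using h2
    have h3 : ∀ i' j', cadj p q i' j' → cadj (e i).1 (e i).2 (f i') (f j') := by
      intro i' j' hij
      have h4 := h1 i' j' hij
      obtain ⟨a, b, ha, hb, hab⟩ := TG.eq_vert h4
      rw [hf] at ha hb
      cases ha
      cases hb
      exact hab
    have h5 := no_hom hq hpq (he i).2 f h3
    have := hlt i
    omega
  obtain ⟨v, ⟨i, j, hij, rfl⟩, hvu⟩ :=
    hgen u W hsat (FreeSemigroup.lift (fun z => TG.vert (z : ZMod p)))
  have hu : FreeSemigroup.lift (fun z : ℕ => (TG.vert (z : ZMod p) : CC.{u} p q)) u = TG.zero := by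
    rw [map_mul, map_mul]
    exact TG.mul3 _ _ _
  rw [hu, map_mul, FreeSemigroup.lift_of, FreeSemigroup.lift_of] at hvu
  simp only [ZMod.natCast_zmod_val] at hvu
  rw [TG.vert_mul _ _ hij] at hvu
  cases hvu

theorem not_countable_of_cc {V : SgClass.{u}} (hV : IsInclVariety V) (x₀ : ℝ) (hx₀ : 2 < x₀)
    (h : ∀ p q : ℕ, 0 < q → 2 * q ≤ p → (p : ℝ) < x₀ * q → V (CC.{u} p q)) :
    ¬ (InclSub V).Countable := by
  intro hc
  let F : ℝ → SgClass.{u} := fun x => genF (fun i : Idx x => CC.{u} i.1.1 i.1.2)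
  have hF : ∀ x ∈ Set.Ioo 2 x₀, F x ∈ InclSub V := by
    intro x hx
    apply genF_mem_sub hV
    rintro ⟨⟨p, q⟩, h1, h2, h3⟩
    apply h p q h1 h2
    have : (0 : ℝ) < q := by exact_mod_cast h1
    calc (p : ℝ) < x * q := h3
      _ ≤ x₀ * q := by
        apply mul_le_mul_of_nonneg_right hx.2.le this.le
  have hinj : Set.InjOn F (Set.Ioo 2 x₀) := by
    have key : ∀ x ∈ Set.Ioo 2 x₀, ∀ y ∈ Set.Ioo 2 x₀, x < y → F x ≠ F y := by
      intro x hx y hy hxy hFF
      obtain ⟨r, hr1, hr2⟩ := exists_rat_btwn hxy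
      have hr0 : (2 : ℝ) < r := hx.1.trans hr1
      have hr0' : (2 : ℚ) < r := by exact_mod_cast hr0
      have hden : 0 < r.den := r.den_pos
      have hnum : 0 < r.num := Rat.num_pos.mpr (by linarith)
      have hreq : (r : ℝ) = (r.num.toNat : ℝ) / r.den := by
        have h1 : (r.num.toNat : ℤ) = r.num := Int.toNat_of_nonneg hnum.le
        have h2 : ((r.num.toNat : ℕ) : ℝ) = (r.num : ℝ) := by exact_mod_cast h1
        rw [h2]
        exact_mod_cast (Rat.num_div_den r).symm
      have hdR : (0 : ℝ) < r.den := by exact_mod_cast hden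
      have e1 : (r.num.toNat : ℝ) = r * r.den := by
        rw [hreq]; field_simp
      have hpq : 2 * r.den ≤ r.num.toNat := by
        have : (2 : ℝ) * r.den ≤ r.num.toNat := by rw [e1]; nlinarith
        exact_mod_cast this
      have hmem : F y (CC.{u} r.num.toNat r.den) := by
        exact genF_mem (fun i : Idx y => CC.{u} i.1.1 i.1.2)
          ⟨(r.num.toNat, r.den), hden, hpq, by
            change (r.num.toNat : ℝ) < y * r.den
            rw [e1]; nlinarith⟩
      rw [← hFF] at hmem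
      refine cc_not_mem (fun i : Idx x => i.1) (fun i => ⟨i.2.1, i.2.2.1⟩) r.num.toNat r.den hden
        hpq ?_ hmem
      rintro ⟨⟨p, q⟩, h1, h2, h3⟩
      change p * r.den < r.num.toNat * q
      have hqR : (0 : ℝ) < q := by exact_mod_cast h1
      have h3' : (p : ℝ) < x * q := h3
      have h4 : (p : ℝ) * r.den < r.num.toNat * q := by
        rw [e1]
        calc (p : ℝ) * r.den < x * q * r.den := by
              apply mul_lt_mul_of_pos_right h3' hdR
          _ = x * (q * r.den) := by ring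
          _ ≤ r * (q * r.den) := by
              apply mul_le_mul_of_nonneg_right hr1.le (by positivity)
          _ = r * r.den * q := by ring
      exact_mod_cast h4
    intro x hx y hy hxy
    rcases lt_trichotomy x y with h1 | h1 | h1
    · exact absurd hxy (key x hx y hy h1)
    · exact h1
    · exact absurd hxy.symm (key y hy x hx h1)
  have h1 : (F '' Set.Ioo 2 x₀).Countable :=
    hc.mono (by rintro _ ⟨x, hx, rfl⟩; exact hF x hx)
  have h2 : (Set.Ioo (2 : ℝ) x₀).Countable := Set.countable_of_injective_of_countable_image hinj h1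
  have h3 := Cardinal.mk_Ioo_real hx₀
  have h4 := h2.le_aleph0
  rw [h3] at h4
  exact absurd h4 (not_le.mpr Cardinal.aleph0_lt_continuum)

/-! ### Cyclic groups -/

/-- the cyclic group of order `p` -/
abbrev Cyc (p : ℕ) : Type u := ULift.{u} (Multiplicative (ZMod p))

theorem pw_eq_pow {M : Type u} [Monoid M] (g : M) (n : ℕ) : pw g n = g ^ (n + 1) := by
  induction n with
  | zero => rw [zero_add, pow_one]; rfl
  | succ n ih => rw [pw, ih, pow_succ g (n + 1)]

theorem cyc_pow (p : ℕ) (g : Cyc.{u} p) (n : ℕ) (hn : (n : ZMod p) = 0) : g ^ n = 1 := by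
  apply ULift.ext
  rw [ULift.pow_down]
  apply Multiplicative.toAdd.injective
  rw [toAdd_pow, nsmul_eq_mul, hn, zero_mul]
  rfl

theorem cyc_not_mem (A : Set ℕ) (hA : ∀ p ∈ A, p.Prime) (q : ℕ) (hq : q.Prime) (hqA : q ∉ A) :
    ¬ genF (fun p : A => Cyc.{u} p) (Cyc.{u} q) := by
  intro hgen
  have hsat : ∀ p : A, SatIncl (Cyc.{u} p) (FreeSemigroup.of 0)
      {v | ∃ p ∈ A, v = pw (FreeSemigroup.of 0) p} := by
    rintro ⟨p, hp⟩ φ
    refine ⟨_, ⟨p, hp, rfl⟩, ?_⟩
    rw [pw_map, pw_eq_pow, pow_succ, cyc_pow p _ p (ZMod.natCast_self p), one_mul]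
  obtain ⟨v, ⟨p, hp, rfl⟩, hv⟩ := hgen _ _ hsat
    (FreeSemigroup.lift (fun _ => ⟨Multiplicative.ofAdd (1 : ZMod q)⟩))
  rw [pw_map, FreeSemigroup.lift_of, pw_eq_pow, pow_succ] at hv
  have h1 : (⟨Multiplicative.ofAdd (1 : ZMod q)⟩ : Cyc.{u} q) ^ p = 1 := by
    apply mul_right_cancel (b := (⟨Multiplicative.ofAdd (1 : ZMod q)⟩ : Cyc.{u} q))
    rw [one_mul]
    exact hv.symm
  have h2 := congrArg (fun g : Cyc.{u} q => Multiplicative.toAdd g.down) h1
  simp only [ULift.pow_down, toAdd_pow, toAdd_ofAdd, nsmul_eq_mul, mul_one] at h2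
  have h3 : (p : ZMod q) = 0 := h2
  rw [ZMod.natCast_eq_zero_iff] at h3
  have h4 : q = p := (Nat.prime_dvd_prime_iff_eq hq (hA p hp)).mp h3
  exact hqA (h4 ▸ hp)

theorem cyc_mem {V : SgClass.{u}} (hV : IsInclVariety V) {S : Type u} [Semigroup S] (hS : V S)
    (a : S) (p : ℕ) [NeZero p] (hinj : ∀ m n, pw a m = pw a n → (m : ZMod p) = n) :
    V (Cyc.{u} p) := by
  obtain ⟨E, hE⟩ := hV
  rw [hE]
  rintro ⟨u, W⟩ he ψ
  have hs : SatIncl S u W := (hE S).mp hS (u, W) he
  change ∃ v ∈ W, ψ u = ψ v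
  let w : ℕ → ℕ := fun z => (Multiplicative.toAdd (ψ (FreeSemigroup.of z)).down - 1).val
  have hw : ∀ v : Word, (wt w v : ZMod p) = Multiplicative.toAdd (ψ v).down := by
    intro v
    induction v using FreeSemigroup.recOnMul with
    | ih1 x =>
      rw [wt_of]
      simp [w]
    | ih2 x y hx hy =>
      rw [wt_mul, Nat.cast_add, hx, hy, map_mul]
      rfl
  obtain ⟨v, hv, hvu⟩ := hs (FreeSemigroup.lift (fun z => pw a (w z)))
  refine ⟨v, hv, ?_⟩
  rw [lift_pw, lift_pw] at hvu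
  have h1 := hinj _ _ hvu
  have h2 := wt_pos w u
  have h3 := wt_pos w v
  rw [Nat.cast_sub h2, Nat.cast_sub h3, hw, hw] at h1
  apply ULift.ext
  apply Multiplicative.toAdd.injective
  exact sub_left_injective h1

theorem finite_cyc {V : SgClass.{u}} (hV : IsInclVariety V) (hc : (InclSub V).Countable) :
    {p : ℕ | p.Prime ∧ V (Cyc.{u} p)}.Finite := by
  by_contra hinf
  have hinf' : {p : ℕ | p.Prime ∧ V (Cyc.{u} p)}.Infinite := hinf
  set P := {p : ℕ | p.Prime ∧ V (Cyc.{u} p)} with hP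
  let F : Set P → SgClass.{u} := fun A => genF (fun p : (Subtype.val '' A : Set ℕ) => Cyc.{u} p)
  have hF : ∀ A, F A ∈ InclSub V := by
    intro A
    apply genF_mem_sub hV
    rintro ⟨_, p, hp, rfl⟩
    exact p.2.2
  have hsub : ∀ A B : Set P, F A = F B → A ⊆ B := by
    intro A B hAB p hp
    by_contra hpB
    have h1 : F A (Cyc.{u} p.1) :=
      genF_mem (fun p : (Subtype.val '' A : Set ℕ) => Cyc.{u} p) ⟨p.1, p, hp, rfl⟩
    rw [hAB] at h1
    refine cyc_not_mem _ ?_ p.1 p.2.1 ?_ h1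
    · rintro _ ⟨r, _, rfl⟩
      exact r.2.1
    · rintro ⟨r, hr, hrp⟩
      exact hpB (Subtype.ext hrp ▸ hr)
  have hinj : Function.Injective F := fun A B hAB =>
    Set.Subset.antisymm (hsub A B hAB) (hsub B A hAB.symm)
  have h1 : (Set.range F).Countable := hc.mono (by rintro _ ⟨A, rfl⟩; exact hF A)
  have h2 : Countable (Set P) := by
    have := h1.to_subtype
    exact Function.Injective.countable (f := Set.rangeFactorization F)
      (fun A B h => hinj (congrArg Subtype.val h))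
  have : Infinite P := hinf'.to_subtype
  obtain ⟨f, hf⟩ := exists_injective_nat (Set P)
  exact Function.cantor_injective (fun A => Infinite.natEmbedding P (f A))
    ((Infinite.natEmbedding P).injective.comp hf)

end Pool.Agent.helper9.Incl
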