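import Mathlib
import Pool.Agent.helper9.Incl.Count

/-!
# Odd cycles
-/

universe u v

namespace Pool.Agent.helper9.Incl

/-- The map of circular cliques onto an odd cycle. -/
theorem exists_hom_cycle (k p q : ℕ) (hq : 0 < q) (hpq : 2 * q ≤ p)
    (hk : p * k ≤ (2 * k + 1) * q) : ∃ f : ZMod p → ZMod (2 * k + 1),
    ∀ i j, cadj p q i j → f j = f i + 1 ∨ f i = f j + 1 := by
  haveI : NeZero p := ⟨by omega⟩
  refine ⟨fun i => ((2 * (i.val * (2 * k + 1) / p) : ℕ) : ZMod (2 * k + 1)), ?_⟩
  have hcyc : ((2 * k + 1 : ℕ) : ZMod (2 * k + 1)) = 0 := ZMod.natCast_self _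
  -- the key case
  have key : ∀ a b : ℕ, a < p → b < p → a + q ≤ b → b + q ≤ a + p →
      ((2 * (b * (2 * k + 1) / p) : ℕ) : ZMod (2 * k + 1)) =
        ((2 * (a * (2 * k + 1) / p) : ℕ) : ZMod (2 * k + 1)) + 1 ∨
      ((2 * (a * (2 * k + 1) / p) : ℕ) : ZMod (2 * k + 1)) =
        ((2 * (b * (2 * k + 1) / p) : ℕ) : ZMod (2 * k + 1)) + 1 := by
    intro a b ha hb h1 h2
    have hp : 0 < p := by omega
    have h3 : a * (2 * k + 1) / p + k ≤ b * (2 * k + 1) / p := by
      rw [← Nat.add_mul_div_left _ _ hp]
      apply Nat.div_le_div_right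
      nlinarith
    have h4 : b * (2 * k + 1) / p ≤ a * (2 * k + 1) / p + (k + 1) := by
      rw [← Nat.add_mul_div_left _ _ hp]
      apply Nat.div_le_div_right
      nlinarith
    rcases (by omega : b * (2 * k + 1) / p = a * (2 * k + 1) / p + k ∨
      b * (2 * k + 1) / p = a * (2 * k + 1) / p + (k + 1)) with h5 | h5
    · right
      rw [h5]
      have h6 : (2 * (a * (2 * k + 1) / p + k) + 1 : ℕ) = 2 * (a * (2 * k + 1) / p) +
        (2 * k + 1) := by ring
      have h7 := congrArg (Nat.cast : ℕ → ZMod (2 * k + 1)) h6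
      rw [Nat.cast_add, Nat.cast_add, hcyc, add_zero, Nat.cast_one] at h7
      exact h7.symm
    · left
      rw [h5]
      have h6 : 2 * (a * (2 * k + 1) / p + (k + 1)) = (2 * (a * (2 * k + 1) / p) + 1) +
        (2 * k + 1) := by ring
      have h7 := congrArg (Nat.cast : ℕ → ZMod (2 * k + 1)) h6
      rw [Nat.cast_add, hcyc, add_zero, Nat.cast_add (2 * (a * (2 * k + 1) / p)) 1,
        Nat.cast_one] at h7
      exact h7
  rintro i j ⟨d, h1, h2, h3⟩
  have hi := ZMod.val_lt i
  have hj := ZMod.val_lt j
  have h4 : (j.val : ZMod p) = ((i.val + d : ℕ) : ZMod p) := by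
    rw [Nat.cast_add, ZMod.natCast_zmod_val, ZMod.natCast_zmod_val, h3]
  have h5 := (ZMod.natCast_eq_natCast_iff' _ _ _).mp h4
  rw [Nat.mod_eq_of_lt hj] at h5
  rcases lt_or_ge (i.val + d) p with h6 | h6
  · rw [Nat.mod_eq_of_lt h6] at h5
    exact key _ _ hi hj (by omega) (by omega)
  · rw [Nat.mod_eq_sub_mod h6, Nat.mod_eq_of_lt (by omega)] at h5
    exact (key _ _ hj hi (by omega) (by omega)).symm

theorem mem_cc_of_odd {V : SgClass.{u}} (hV : IsInclVariety V)
    (hidx : ∀ (S : Type u) [Semigroup S], V S → ∀ a : S, ∃ n, 2 ≤ n ∧ pw a 1 = pw a n)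
    {S : Type u} [Semigroup S] (hS : V S) (k : ℕ) (s : ZMod (2 * k + 1) → S)
    (hs : ∀ i, ∀ w : FreeSemigroup (ZMod (2 * k + 1)), 3 ≤ w.length →
      s i * s (i + 1) ≠ FreeSemigroup.lift s w ∧ s (i + 1) * s i ≠ FreeSemigroup.lift s w)
    (p q : ℕ) (hq : 0 < q) (hpq : 2 * q ≤ p) (hpk : p * k ≤ (2 * k + 1) * q) :
    V (CC.{u} p q) := by
  classical
  obtain ⟨f, hf⟩ := exists_hom_cycle k p q hq hpq hpk
  have hS' := hS
  obtain ⟨E, hE⟩ := hV
  rw [hE]
  rintro ⟨u, W⟩ he ψ
  have hs1 : SatIncl S u W := (hE S).mp hS' (u, W) he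
  change ∃ v ∈ W, ψ u = ψ v
  -- the set of values of words of length at least three
  set I : Set S := {t | ∃ w : FreeSemigroup (ZMod (2 * k + 1)), 3 ≤ w.length ∧
    t = FreeSemigroup.lift s w} with hI
  have hedge : ∀ i, s i * s (i + 1) ∉ I ∧ s (i + 1) * s i ∉ I := by
    intro i
    constructor
    · rintro ⟨w, hw, hwe⟩; exact (hs i w hw).1 hwe
    · rintro ⟨w, hw, hwe⟩; exact (hs i w hw).2 hwe
  have hword : ∀ w : FreeSemigroup (ZMod (2 * k + 1)), 3 ≤ w.length →
    FreeSemigroup.lift s w ∈ I := fun w hw => ⟨w, hw, rfl⟩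
  -- general substitution
  have hsub : ∀ (θ : ℕ → FreeSemigroup (ZMod (2 * k + 1))), ∃ v ∈ W,
      FreeSemigroup.lift s (FreeSemigroup.lift θ u) = FreeSemigroup.lift s
        (FreeSemigroup.lift θ v) := by
    intro θ
    obtain ⟨v, hv, hvu⟩ := hs1 ((FreeSemigroup.lift s).comp (FreeSemigroup.lift θ))
    exact ⟨v, hv, hvu⟩
  have hlift_len : ∀ (θ : ℕ → FreeSemigroup (ZMod (2 * k + 1))) (v : Word),
      v.length ≤ (FreeSemigroup.lift θ v).length := by
    intro θ v
    induction v using FreeSemigroup.recOnMul with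
    | ih1 x =>
      rw [FreeSemigroup.lift_of]
      simp only [FreeSemigroup.length_of]
      unfold FreeSemigroup.length; omega
    | ih2 x y hx hy =>
      rw [map_mul, FreeSemigroup.length_mul, FreeSemigroup.length_mul]
      omega
  -- vertices are not in I
  have hvert : ∀ i, s i ∉ I := by
    rintro i ⟨w, hw, hwe⟩
    apply (hedge i).1
    refine ⟨w * FreeSemigroup.of (i + 1), ?_, ?_⟩
    · rw [FreeSemigroup.length_mul]; omega
    · rw [map_mul, ← hwe, FreeSemigroup.lift_of]
  -- squares are in I
  have hsq : ∀ i, s i * s i ∈ I := by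
    intro i
    obtain ⟨n, hn, hne⟩ := hidx S hS' (s i)
    refine ⟨pw (FreeSemigroup.of i) n, ?_, ?_⟩
    · have h1 : ∀ n, (pw (FreeSemigroup.of i) n).length = n + 1 := by
        intro n
        induction n with
        | zero => rfl
        | succ n ih => rw [pw, FreeSemigroup.length_mul, ih, FreeSemigroup.length_of]
      rw [h1]; omega
    · rw [pw_map, FreeSemigroup.lift_of, ← hne]
      rfl
  have hnil : ∀ x y z : CC.{u} p q, x * y * z = TG.zero := TG.mul3
  have hcomm : ∀ x y : CC.{u} p q, x * y = y * x := TG.comm (fun _ _ h => cadj_symm h)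
  -- the global substitution
  let g : CC.{u} p q → FreeSemigroup (ZMod (2 * k + 1)) := fun t =>
    match t with
    | .zero => ⟨0, [0, 0]⟩
    | .c => ⟨0, [0 + 1]⟩
    | .vert i => FreeSemigroup.of (f i)
  have hglobal : FreeSemigroup.lift s (FreeSemigroup.lift
      (fun z => g (ψ (FreeSemigroup.of z))) u) ∈ I → ψ u = TG.zero → ∃ v ∈ W, ψ u = ψ v := by
    intro hu hu0
    obtain ⟨v, hv, hvu⟩ := hsub (fun z => g (ψ (FreeSemigroup.of z)))
    refine ⟨v, hv, ?_⟩
    rw [hvu] at hu
    rw [hu0]
    obtain ⟨z, l⟩ := v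
    match l with
    | [] =>
      change FreeSemigroup.lift s (g (ψ (FreeSemigroup.of z))) ∈ I at hu
      change TG.zero = ψ (FreeSemigroup.of z)
      cases hz : ψ (FreeSemigroup.of z) with
      | zero => rfl
      | c =>
        rw [hz] at hu
        exact absurd hu (hedge 0).1
      | vert i =>
        rw [hz] at hu
        exact absurd hu (hvert (f i))
    | [t] =>
      change TG.zero = ψ (FreeSemigroup.of z * FreeSemigroup.of t)
      rw [map_mul]
      by_contra hne
      obtain ⟨i, j, hi, hj, hij⟩ := TG.eq_vert (Ne.symm hne)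
      change FreeSemigroup.lift s (g (ψ (FreeSemigroup.of z)) * g (ψ (FreeSemigroup.of t))) ∈ I
        at hu
      rw [hi, hj] at hu
      change s (f i) * s (f j) ∈ I at hu
      rcases hf i j hij with h | h
      · rw [h] at hu; exact (hedge _).1 hu
      · rw [h] at hu; exact (hedge _).2 hu
    | t :: t' :: l =>
      exact (eval_nil _ hnil ψ _ (by simp [FreeSemigroup.length])).symm
  obtain ⟨x, l⟩ := u
  match l with
  | [] =>
    obtain ⟨v, hv, hvu⟩ := hsub (fun z => if ψ (FreeSemigroup.of z) = ψ (FreeSemigroup.of x) then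
      FreeSemigroup.of 0 else ⟨0, [0, 0]⟩)
    refine ⟨v, hv, ?_⟩
    have e1 : FreeSemigroup.lift s (FreeSemigroup.lift (fun z =>
        if ψ (FreeSemigroup.of z) = ψ (FreeSemigroup.of x) then
        FreeSemigroup.of (0 : ZMod (2 * k + 1)) else ⟨0, [0, 0]⟩) (⟨x, []⟩ : Word)) = s 0 := by
      have : (⟨x, []⟩ : Word) = FreeSemigroup.of x := rfl
      rw [this, FreeSemigroup.lift_of]
      simp
    rw [e1] at hvu
    obtain ⟨z, l'⟩ := v
    match l' with
    | [] =>
      have e2 : (⟨z, []⟩ : Word) = FreeSemigroup.of z := rfl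
      rw [e2, FreeSemigroup.lift_of] at hvu
      split_ifs at hvu with h1
      · exact h1.symm
      · exact absurd (hvu ▸ hword _ (by simp [FreeSemigroup.length])) (hvert 0)
    | [t] =>
      exfalso
      have hlen := hlift_len (fun z => if ψ (FreeSemigroup.of z) = ψ (FreeSemigroup.of x) then
        FreeSemigroup.of (0 : ZMod (2 * k + 1)) else ⟨0, [0, 0]⟩) (⟨z, [t]⟩ : Word)
      have e2 : (⟨z, [t]⟩ : Word) = FreeSemigroup.of z * FreeSemigroup.of t := rfl
      rw [e2, map_mul, FreeSemigroup.lift_of, FreeSemigroup.lift_of] at hvu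
      split_ifs at hvu with h1 h2 h2
      · rw [map_mul, FreeSemigroup.lift_of] at hvu
        exact hvert 0 (hvu ▸ hsq 0)
      · exact hvert 0 (hvu ▸ hword _ (by simp [FreeSemigroup.length]))
      · exact hvert 0 (hvu ▸ hword _ (by simp [FreeSemigroup.length]))
      · exact hvert 0 (hvu ▸ hword _ (by simp [FreeSemigroup.length]))
    | t :: t' :: l' =>
      exfalso
      have hlen := hlift_len (fun z => if ψ (FreeSemigroup.of z) = ψ (FreeSemigroup.of x) then
        FreeSemigroup.of (0 : ZMod (2 * k + 1)) else ⟨0, [0, 0]⟩) (⟨z, t :: t' :: l'⟩ : Word)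
      have hl : 3 ≤ (⟨z, t :: t' :: l'⟩ : Word).length := by
        simp [FreeSemigroup.length]
      exact hvert 0 (hvu ▸ hword _ (hl.trans hlen))
  | [y] =>
    have e0 : (⟨x, [y]⟩ : Word) = FreeSemigroup.of x * FreeSemigroup.of y := rfl
    by_cases hxy : x = y
    · subst hxy
      have hzero : ψ (⟨x, [x]⟩ : Word) = TG.zero := by
        rw [e0, map_mul]
        by_contra hne
        obtain ⟨i, j, hi, hj, hij⟩ := TG.eq_vert hne
        rw [hi] at hj
        cases hj
        obtain ⟨d, h1, h2, h3⟩ := hij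
        have h4 : ((d : ℕ) : ZMod p) = 0 := by
          have h5 : i + 0 = i + (d : ZMod p) := by rw [add_zero]; exact h3
          exact (add_left_cancel h5).symm
        rw [ZMod.natCast_eq_zero_iff] at h4
        have := Nat.le_of_dvd (by omega) h4
        omega
      apply hglobal _ hzero
      rw [e0, map_mul, FreeSemigroup.lift_of]
      cases hz : ψ (FreeSemigroup.of x) with
      | zero => exact hword _ (by simp [g, FreeSemigroup.length])
      | c => exact hword _ (by simp [g, FreeSemigroup.length])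
      | vert i =>
        rw [map_mul]
        exact hsq (f i)
    · let θ : ℕ → FreeSemigroup (ZMod (2 * k + 1)) := fun z =>
        if z = x then FreeSemigroup.of 0 else if z = y then FreeSemigroup.of (0 + 1) else
          ⟨0, [0, 0]⟩
      have hθ : ∀ z, 1 ≤ (θ z).length := by
        intro z
        unfold FreeSemigroup.length
        omega
      obtain ⟨v, hv, hvu⟩ := hsub θ
      refine ⟨v, hv, ?_⟩
      have e1 : FreeSemigroup.lift s (FreeSemigroup.lift θ (⟨x, [y]⟩ : Word)) =
          s 0 * s (0 + 1) := by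
        rw [e0, map_mul, FreeSemigroup.lift_of, FreeSemigroup.lift_of, map_mul]
        simp only [θ, if_true, if_neg (Ne.symm hxy), FreeSemigroup.lift_of]
      rw [e1] at hvu
      have hlen : (FreeSemigroup.lift θ v).length < 3 := by
        by_contra hcon
        push Not at hcon
        exact (hedge 0).1 (hvu ▸ hword _ hcon)
      obtain ⟨z, l'⟩ := v
      match l' with
      | [] =>
        exfalso
        have e2 : (⟨z, []⟩ : Word) = FreeSemigroup.of z := rfl
        rw [e2, FreeSemigroup.lift_of] at hvu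
        simp only [θ] at hvu
        split_ifs at hvu with h6 h7
        · rw [FreeSemigroup.lift_of] at hvu
          apply (hedge 0).1
          refine ⟨FreeSemigroup.of 0 * FreeSemigroup.of (0 + 1) * FreeSemigroup.of (0 + 1), ?_, ?_⟩
          · simp
          · rw [map_mul, map_mul, FreeSemigroup.lift_of, FreeSemigroup.lift_of, hvu]
            exact hvu.symm
        · rw [FreeSemigroup.lift_of] at hvu
          apply (hedge 0).1
          refine ⟨FreeSemigroup.of 0 * (FreeSemigroup.of 0 * FreeSemigroup.of (0 + 1)), ?_, ?_⟩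
          · simp
          · rw [map_mul, map_mul, FreeSemigroup.lift_of, FreeSemigroup.lift_of, hvu]
            exact hvu.symm
        · exact (hedge 0).1 (hvu ▸ hword _ (by simp [FreeSemigroup.length]))
      | [t] =>
        have e2 : (⟨z, [t]⟩ : Word) = FreeSemigroup.of z * FreeSemigroup.of t := rfl
        rw [e2, map_mul, FreeSemigroup.length_mul, FreeSemigroup.lift_of,
          FreeSemigroup.lift_of] at hlen
        rw [e2, map_mul, FreeSemigroup.lift_of, FreeSemigroup.lift_of] at hvu
        have hθz : z = x ∨ z = y := by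
          by_contra hcon
          push Not at hcon
          have h8 : (θ z).length = 3 := by simp [θ, hcon.1, hcon.2, FreeSemigroup.length]
          have := hθ t
          omega
        have hθt : t = x ∨ t = y := by
          by_contra hcon
          push Not at hcon
          have h8 : (θ t).length = 3 := by simp [θ, hcon.1, hcon.2, FreeSemigroup.length]
          have := hθ z
          omega
        rcases hθz with rfl | rfl <;> rcases hθt with rfl | rfl
        · exfalso
          apply (hedge 0).1
          rw [hvu, map_mul]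
          simp only [θ, if_true, FreeSemigroup.lift_of]
          exact hsq 0
        · rfl
        · rw [e0, e2, map_mul, map_mul]
          exact hcomm _ _
        · exfalso
          apply (hedge 0).1
          rw [hvu, map_mul]
          simp only [θ, if_true, if_neg (Ne.symm hxy), FreeSemigroup.lift_of]
          exact hsq _
      | t :: t' :: l' =>
        exfalso
        have h8 : (⟨z, t :: t' :: l'⟩ : Word) = FreeSemigroup.of z * FreeSemigroup.of t *
          ⟨t', l'⟩ := rfl
        rw [h8, map_mul, map_mul, FreeSemigroup.length_mul, FreeSemigroup.length_mul,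
          FreeSemigroup.lift_of, FreeSemigroup.lift_of] at hlen
        have h9 : 1 ≤ (FreeSemigroup.lift θ (⟨t', l'⟩ : Word)).length := by
          unfold FreeSemigroup.length; omega
        have := hθ z
        have := hθ t
        omega
  | y :: z :: l =>
    have hl : 3 ≤ (⟨x, y :: z :: l⟩ : Word).length := by
      simp [FreeSemigroup.length]
    apply hglobal
    · exact hword _ (hl.trans (hlift_len _ _))
    · exact eval_nil _ hnil ψ _ hl

end Pool.Agent.helper9.Incl
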