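import Mathlib
import Pool.Agent.helper9.Incl.Odd

/-!
# Necessary conditions for a countable lattice of inclusive subvarieties
-/

universe u v

namespace Pool.Agent.helper9.Incl

/-- In a semigroup with an element `a` of prime order `p`, powers of `a` agree only when the
exponents are congruent modulo `p`. -/
theorem pw_congr {S : Type u} [Semigroup S] (a : S) (p : ℕ) (hp : p.Prime) (h1 : pw a p = a)
    (h2 : a * a ≠ a) (m n : ℕ) (h : pw a m = pw a n) : (m : ZMod p) = n := by
  let P : ℕ → Prop := fun d => ∀ j, pw a (j + d) = pw a j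
  have hPp : P p := by
    intro j
    cases j with
    | zero => rw [zero_add, h1]; rfl
    | succ j =>
      have h3 := pw_mul a p j
      rw [h1] at h3
      have h4 := pw_mul a 0 j
      change a * pw a j = _ at h4
      rw [h4] at h3
      rw [show j + 1 + p = p + j + 1 by ring, ← h3, zero_add]
  have hP0 : P 0 := fun j => rfl
  have hadd : ∀ d e, P d → P e → P (d + e) := by
    intro d e hd he j
    rw [← add_assoc, he, hd]
  have hmul : ∀ t d, P d → P (t * d) := by
    intro t d hd
    induction t with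
    | zero => rw [zero_mul]; exact hP0
    | succ t ih => rw [Nat.succ_mul]; exact hadd _ _ ih hd
  have hcancel : ∀ d e, P (d + e) → P e → P d := by
    intro d e hde he j
    rw [← he (j + d), add_assoc, hde]
  have hP1 : ¬ P 1 := by
    intro h3
    apply h2
    exact h3 0
  have hdvd : ∀ d, P d → p ∣ d := by
    intro d hd
    by_contra hnd
    have hcop : Nat.Coprime d p := ((Nat.Prime.coprime_iff_not_dvd hp).mpr hnd).symm
    obtain ⟨t, ht⟩ := Nat.exists_mul_mod_eq_one_of_coprime hcop hp.one_lt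
    have h4 : P (t * d) := hmul t d hd
    have h5 : t * d = 1 + (t * d / p) * p := by
      have h6 := Nat.mod_add_div (t * d) p
      have h7 : t * d % p = 1 := by rw [mul_comm]; exact ht.2
      rw [h7] at h6
      rw [mul_comm (t * d / p) p]
      exact h6.symm
    rw [h5] at h4
    exact hP1 (hcancel _ _ h4 (hmul _ _ hPp))
  have key : ∀ m n, m ≤ n → pw a m = pw a n → (m : ZMod p) = n := by
    intro m n hmn h
    have h3 : P (n - m) := by
      intro j
      have h4 : P (m * p) := hmul m p hPp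
      have h5 : m ≤ m * p := Nat.le_mul_of_pos_right m hp.pos
      rw [← h4 j, ← h4 (j + (n - m))]
      -- multiply the equation by a power
      have h6 : ∀ k, pw a (m + k + 1) = pw a (n + k + 1) := by
        intro k
        rw [← pw_mul, ← pw_mul, h]
      rcases Nat.eq_zero_or_pos (j + m * p - m) with h7 | h7
      · have h8 : j + m * p = m := by omega
        rw [h8, show j + (n - m) + m * p = n by omega]
        exact h.symm
      · have h8 := h6 (j + m * p - m - 1)
        rw [show m + (j + m * p - m - 1) + 1 = j + m * p by omega,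
          show n + (j + m * p - m - 1) + 1 = j + (n - m) + m * p by omega] at h8
        exact h8.symm
    have h4 := hdvd _ h3
    have h5 : ((n - m : ℕ) : ZMod p) = 0 := (ZMod.natCast_eq_zero_iff _ _).mpr h4
    rw [Nat.cast_sub hmn, sub_eq_zero] at h5
    exact h5.symm
  rcases le_total m n with hmn | hmn
  · exact key m n hmn h
  · exact (key n m hmn h.symm).symm

theorem pw_lift_ge {S : Type u} [Semigroup S] (a : S) (w : FreeSemigroup Bool) :
    ∃ n, 2 * w.length ≤ n + 1 ∧
      FreeSemigroup.lift (fun c : Bool => cond c (pw a 1) (pw a 2)) w = pw a n := by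
  induction w using FreeSemigroup.recOnMul with
  | ih1 x =>
    cases x
    · exact ⟨2, by simp, rfl⟩
    · exact ⟨1, by simp, rfl⟩
  | ih2 x y hx hy =>
    obtain ⟨m, hm, hm'⟩ := hx
    obtain ⟨n, hn, hn'⟩ := hy
    refine ⟨m + n + 1, ?_, ?_⟩
    · rw [FreeSemigroup.length_mul]
      omega
    · rw [map_mul, hm', hn', pw_mul]

theorem necessary (V : SgClass.{u}) (hV : IsInclVariety V) (hc : (InclSub V).Countable) :
    (∀ (S : Type u) [Semigroup S], V S → ∀ a : S, ∃ m n : ℕ, m ≠ n ∧ pw a m = pw a n) ∧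
    {p : ℕ | p.Prime ∧ ∃ (S : Type u) (_ : Semigroup S), V S ∧
      ∃ a : S, pw a p = a ∧ a * a ≠ a}.Finite ∧
    ((∀ (S : Type u) [Semigroup S], V S → ∀ a b : S, a * b = a * a ∨ a * b = b * b ∨
        ∃ w : FreeSemigroup Bool, 3 ≤ w.length ∧
          a * b = FreeSemigroup.lift (fun c : Bool => cond c a b) w) ∨
      ((∀ (S : Type u) [Semigroup S], V S → ∀ a : S, ∃ n : ℕ, 2 ≤ n ∧ pw a 1 = pw a n) ∧
        ∀ (S : Type u) [Semigroup S], V S → ∀ k : ℕ, 0 < k → ∀ s : ZMod (2 * k + 1) → S,
          ∃ (i : ZMod (2 * k + 1)) (w : FreeSemigroup (ZMod (2 * k + 1))), 3 ≤ w.length ∧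
            (s i * s (i + 1) = FreeSemigroup.lift s w ∨
              s (i + 1) * s i = FreeSemigroup.lift s w))) ∧
    (∀ (S : Type u) [Semigroup S], V S → ∀ a : S, ∃ n : ℕ, 5 ≤ n ∧ pw a 4 = pw a n) := by
  have hfin := finite_cyc hV hc
  have hC : (∀ (S : Type u) [Semigroup S], V S → ∀ a b : S, a * b = a * a ∨ a * b = b * b ∨
        ∃ w : FreeSemigroup Bool, 3 ≤ w.length ∧
          a * b = FreeSemigroup.lift (fun c : Bool => cond c a b) w) ∨
      ((∀ (S : Type u) [Semigroup S], V S → ∀ a : S, ∃ n : ℕ, 2 ≤ n ∧ pw a 1 = pw a n) ∧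
        ∀ (S : Type u) [Semigroup S], V S → ∀ k : ℕ, 0 < k → ∀ s : ZMod (2 * k + 1) → S,
          ∃ (i : ZMod (2 * k + 1)) (w : FreeSemigroup (ZMod (2 * k + 1))), 3 ≤ w.length ∧
            (s i * s (i + 1) = FreeSemigroup.lift s w ∨
              s (i + 1) * s i = FreeSemigroup.lift s w)) := by
    by_cases h1 : ∀ (S : Type u) [Semigroup S], V S → ∀ a : S, ∃ n : ℕ, 2 ≤ n ∧ pw a 1 = pw a n
    · right
      refine ⟨h1, ?_⟩
      intro S _ hS k hk s
      by_contra hcon
      push Not at hcon
      have hkR : (0 : ℝ) < k := by exact_mod_cast hk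
      refine not_countable_of_cc hV ((2 * k + 1) / k) ?_ ?_ hc
      · rw [lt_div_iff₀ hkR]; linarith
      · intro p q hq hpq hlt
        apply mem_cc_of_odd hV h1 hS k s (fun i w hw => hcon i w hw) p q hq hpq
        rw [div_mul_eq_mul_div, lt_div_iff₀ hkR] at hlt
        exact_mod_cast hlt.le
    · left
      push Not at h1
      obtain ⟨S₁, _, hS₁, a, ha⟩ := h1
      intro S₂ _ hS₂ b₁ b₂
      by_contra hcon
      push Not at hcon
      refine not_countable_of_cc hV 3 (by norm_num) ?_ hc
      intro p q _ _ _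
      exact mem_of_comm_nil hV hS₁ a ha hS₂ b₁ b₂ hcon.1 hcon.2.1
        (fun w hw => hcon.2.2 w hw) _ (TG.comm (fun _ _ h => cadj_symm h)) TG.zero TG.mul3
  refine ⟨?_, ?_, hC, ?_⟩
  · intro S _ hS a
    by_contra hcon
    push Not at hcon
    have h1 : {p : ℕ | p.Prime} ⊆ {p : ℕ | p.Prime ∧ V (Cyc.{u} p)} := by
      intro p hp
      have hp' : p.Prime := hp
      haveI : NeZero p := ⟨hp'.ne_zero⟩
      refine ⟨hp, cyc_mem hV hS a p ?_⟩
      intro m n hmn
      by_contra hne
      exact hcon m n (fun h => hne (by rw [h])) hmn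
    exact Nat.infinite_setOfPred_prime (hfin.subset h1)
  · apply hfin.subset
    rintro p ⟨hp, S, _, hS, a, ha1, ha2⟩
    haveI : NeZero p := ⟨hp.ne_zero⟩
    exact ⟨hp, cyc_mem hV hS a p (pw_congr a p hp ha1 ha2)⟩
  · intro S _ hS a
    rcases hC with h | ⟨h, -⟩
    · rcases h S hS (pw a 1) (pw a 2) with h1 | h1 | ⟨w, hw, h1⟩
      · refine ⟨5, le_rfl, ?_⟩
        rw [pw_mul, pw_mul] at h1
        have h2 : pw a 4 = pw a 3 := h1
        change pw a 4 = pw a 4 * a
        rw [h2]
        exact h2.symm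
      · rw [pw_mul, pw_mul] at h1
        exact ⟨5, le_rfl, h1⟩
      · obtain ⟨n, hn, hn'⟩ := pw_lift_ge a w
        rw [pw_mul, hn'] at h1
        exact ⟨n, by omega, h1⟩
    · obtain ⟨n, hn, h1⟩ := h S hS a
      refine ⟨n + 3, by omega, ?_⟩
      have h2 := pw_mul a 1 2
      have h3 := pw_mul a n 2
      rw [h1, h3] at h2
      exact h2.symm

end Pool.Agent.helper9.Incl
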